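import Pool.Agent.X12.Szp8

/-!
# The number of all semistable curves that violate Szpiro's inequality with a given exponent

We count all semistable elliptic curves over `ℚ` (no condition on the torsion) of naive height at
most `H` with `|Δ| > N ^ κ`.  Their number is `H ^ (1/κ - 1/6 + o(1))` for every `1 ≤ κ ≤ 6/5`, it is
at least `H ^ (1/κ - 1/6 - ε)` for every `κ < 6`, and at most `C H ^ (2/3 + ε)` for `κ ≥ 6/5`.

Upper bound: `|Δ| > N ^ κ` makes the quotient `Δ / N` large, so that `d rad d` divides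
`c₄³ - c₆²` for some `d ≤ H ^ (1/3)` which is not small, or `c₄³ - c₆²` is divisible by the square of a
prime larger than `H ^ (1/3)`.  In the first case `c₆` is for given `c₄` and `d` in few residue classes
modulo `d rad d`; in the second case `(c₆, p)` is for given `c₄` and `(c₄³ - c₆²) / p²` a point of a
conic in a box, and there are at most `H ^ ε` of them.  Lower bound: curves with a discriminant
divisible by a high power of `5` (`κ < 2`), and Frey curves (`2 ≤ κ < 6`).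
-/

set_option autoImplicit false

namespace Pool.Agent.Results.MP_d8bd92_nt.AllSemistableByHeight

open Filter Topology

/-- the product of the primes dividing `Δ(W)` (the conductor if `gcd(c₄, Δ) = 1`) -/
def conductor (W : WeierstrassCurve ℤ) : ℕ := ∏ p ∈ W.Δ.natAbs.primeFactors, p

/-- the invariants `(c₄, c₆)` of the integral Weierstrass curves with `Δ ≠ 0` and `gcd(c₄, Δ) = 1`
(the minimal models of the semistable elliptic curves over `ℚ`) with naive height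
`max (|c₄|³, c₆²) ≤ H` and `N ^ κ < |Δ|`, `N` the conductor -/
def Exceptional (κ H : ℝ) : Set (ℤ × ℤ) :=
  {q | ∃ W : WeierstrassCurve ℤ, W.Δ ≠ 0 ∧ IsCoprime W.c₄ W.Δ ∧ q = (W.c₄, W.c₆) ∧
    |(W.c₄ : ℝ)| ^ 3 ≤ H ∧ (W.c₆ : ℝ) ^ 2 ≤ H ∧ (conductor W : ℝ) ^ κ < |(W.Δ : ℝ)|}

lemma eq_Exc (κ H : ℝ) (hH : 0 ≤ H) : Exceptional κ H = Pool.Agent.X12.Szp.Exc κ (H ^ (1 / 6 : ℝ)) := by
  have hX : 0 ≤ H ^ (1 / 6 : ℝ) := Real.rpow_nonneg hH _
  have h6 : (H ^ (1 / 6 : ℝ)) ^ 6 = H := by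
    rw [← Real.rpow_natCast, ← Real.rpow_mul hH]
    norm_num
  ext q
  constructor
  · rintro ⟨W, h1, h2, h3, h4, h5, h7⟩
    refine ⟨W, h1, h2, h3, ?_, ?_, h7⟩
    · refine (pow_le_pow_iff_left₀ (abs_nonneg _) (by positivity) (by norm_num : 3 ≠ 0)).1 ?_
      rw [← pow_mul]
      calc |(W.c₄ : ℝ)| ^ 3 ≤ H := h4
        _ = (H ^ (1 / 6 : ℝ)) ^ (2 * 3) := h6.symm
    · refine (pow_le_pow_iff_left₀ (abs_nonneg _) (by positivity) (by norm_num : 2 ≠ 0)).1 ?_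
      rw [← pow_mul, sq_abs]
      calc (W.c₆ : ℝ) ^ 2 ≤ H := h5
        _ = (H ^ (1 / 6 : ℝ)) ^ (3 * 2) := h6.symm
  · rintro ⟨W, h1, h2, h3, h4, h5, h7⟩
    refine ⟨W, h1, h2, h3, ?_, ?_, h7⟩
    · calc |(W.c₄ : ℝ)| ^ 3 ≤ ((H ^ (1 / 6 : ℝ)) ^ 2) ^ 3 := by gcongr
        _ = (H ^ (1 / 6 : ℝ)) ^ 6 := by ring
        _ = H := h6
    · rw [← sq_abs]
      calc |(W.c₆ : ℝ)| ^ 2 ≤ ((H ^ (1 / 6 : ℝ)) ^ 3) ^ 2 := by gcongr
        _ = (H ^ (1 / 6 : ℝ)) ^ 6 := by ring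
        _ = H := h6

/-- **Theorem.**  The sets are finite.  (1) For `1 ≤ κ ≤ 6/5` the number of the semistable elliptic
curves over `ℚ` of naive height at most `H` with `|Δ| > N ^ κ` is `H ^ (1/κ - 1/6 + o(1))`.
(2) For `1 ≤ κ < 6` and `ε > 0` it is at least `H ^ (1/κ - 1/6 - ε)` for all large `H`.  (3) For
`κ ≥ 6/5` and `ε > 0` it is at most `C H ^ (2/3 + ε)`. -/
theorem result :
    (∀ κ H : ℝ, (Exceptional κ H).Finite) ∧
    (∀ κ : ℝ, 1 ≤ κ → κ ≤ 6 / 5 →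
      Tendsto (fun H : ℝ => Real.log ((Exceptional κ H).ncard : ℝ) / Real.log H) atTop
        (𝓝 (1 / κ - 1 / 6))) ∧
    (∀ κ ε : ℝ, 1 ≤ κ → κ < 6 → 0 < ε → ∃ H₀ : ℝ, ∀ H : ℝ, H₀ ≤ H →
      H ^ (1 / κ - 1 / 6 - ε) ≤ ((Exceptional κ H).ncard : ℝ)) ∧
    (∀ κ ε : ℝ, 6 / 5 ≤ κ → 0 < ε → ∃ C : ℝ, 0 < C ∧ ∀ H : ℝ, 1 ≤ H →
      ((Exceptional κ H).ncard : ℝ) ≤ C * H ^ (2 / 3 + ε)) := by
  have hlow : ∀ κ ε : ℝ, 1 ≤ κ → κ < 6 → 0 < ε → ∃ H₀ : ℝ, ∀ H : ℝ, H₀ ≤ H →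
      H ^ (1 / κ - 1 / 6 - ε) ≤ ((Exceptional κ H).ncard : ℝ) := by
    intro κ ε hκ hκ6 hε
    obtain ⟨X0, h⟩ := Pool.Agent.X12.Szp.lower_all κ (6 * ε) hκ hκ6 (by positivity)
    refine ⟨max 1 (max X0 1 ^ 6), fun H hH => ?_⟩
    have h1 : (1 : ℝ) ≤ H := (le_max_left _ _).trans hH
    have h2 : max X0 1 ^ 6 ≤ H := (le_max_right _ _).trans hH
    have h3 : max X0 1 ≤ H ^ (1 / 6 : ℝ) := by
      have e1 : max X0 1 = (max X0 1 ^ 6) ^ (1 / 6 : ℝ) := by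
        rw [← Real.rpow_natCast, ← Real.rpow_mul (by positivity)]
        norm_num
      rw [e1]
      exact Real.rpow_le_rpow (by positivity) h2 (by norm_num)
    have h4 := h (H ^ (1 / 6 : ℝ)) ((le_max_left _ _).trans h3)
    rw [eq_Exc κ H (by linarith)]
    refine le_trans (le_of_eq ?_) h4
    rw [← Real.rpow_mul (by linarith)]
    congr 1
    ring
  refine ⟨fun κ H => ?_, fun κ hκ hκ' => ?_, hlow, fun κ ε hκ hε => ?_⟩
  · rcases lt_or_ge H 0 with h | h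
    · have : Exceptional κ H = ∅ := by
        rw [Set.eq_empty_iff_forall_notMem]
        rintro q ⟨W, -, -, -, -, h5, -⟩
        nlinarith [sq_nonneg (W.c₆ : ℝ)]
      rw [this]
      exact Set.finite_empty
    · rw [eq_Exc κ H h]
      exact Pool.Agent.X12.Szp.Exc_finite _ _
  · refine Pool.Agent.X12.Szp.tendsto_of_bounds _ _ (fun ε hε => hlow κ ε hκ (by linarith) hε)
      fun ε hε => ?_
    obtain ⟨C, hC, h⟩ := Pool.Agent.X12.Szp.upper κ (6 * ε) hκ hκ' (by positivity)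
    refine ⟨C, hC, fun H hH => ?_⟩
    have h1 := h (H ^ (1 / 6 : ℝ)) (Real.one_le_rpow hH (by norm_num))
    rw [eq_Exc κ H (by linarith)]
    refine h1.trans (le_of_eq ?_)
    rw [← Real.rpow_mul (by linarith)]
    congr 2
    ring
  · obtain ⟨C, hC, h⟩ := Pool.Agent.X12.Szp.upper_large κ (6 * ε) hκ (by positivity)
    refine ⟨C, hC, fun H hH => ?_⟩
    have h1 := h (H ^ (1 / 6 : ℝ)) (Real.one_le_rpow hH (by norm_num))
    rw [eq_Exc κ H (by linarith)]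
    refine h1.trans (le_of_eq ?_)
    rw [← Real.rpow_mul (by linarith)]
    congr 2
    ring

end Pool.Agent.Results.MP_d8bd92_nt.AllSemistableByHeight
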