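import Pool.Agent.X286.Gn.Inf

/-!
# Szpiro's inequality for semistable curves whose discriminant has few different exponents

For every one-parameter family of elliptic curves whose invariant `J = F / G` has at least three
rational poles on the projective line, every `n` and every `ε > 0` there is `κ` such that Szpiro's
inequality `|Δ| ≤ N ^ κ` holds for all semistable elliptic curves over `ℚ` of conductor `N ≤ X`, of
whatever height, whose invariant is a value of `J` and whose minimal discriminant has at most `n`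
different exponents in its prime factorisation, apart from at most `C X ^ ε` of them. This applies
to the semistable curves with full rational 2-torsion and to those with a rational cyclic isogeny of
degree 4 or of degree 6.
-/

set_option autoImplicit false

namespace Pool.Agent.Results.MP_d8bd92_nt.FewExponents

open Polynomial Finset

/-- `W` is the minimal model of a semistable elliptic curve over `ℚ` -/
def Semistable (W : WeierstrassCurve ℤ) : Prop := W.Δ ≠ 0 ∧ IsCoprime W.c₄ W.Δ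

/-- the product of the primes dividing `Δ(W)`, the conductor of a semistable curve -/
def conductor (W : WeierstrassCurve ℤ) : ℕ := ∏ p ∈ W.Δ.natAbs.primeFactors, p

/-- the number of different exponents in the prime factorisation of `m` -/
def exponents (m : ℕ) : ℕ := (m.primeFactors.image m.factorization).card

/-- the invariants `(c₄, c₆)` of the semistable curves of a class `Q` whose discriminant has at most
`n` different exponents, with conductor at most `X`, which fail `|Δ| ≤ N ^ κ`; there is no bound on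
the height of the curve -/
def Exceptional (Q : WeierstrassCurve ℤ → Prop) (n κ X : ℕ) : Set (ℤ × ℤ) :=
  {q | ∃ W : WeierstrassCurve ℤ, Semistable W ∧ Q W ∧ exponents W.Δ.natAbs ≤ n ∧
    q = (W.c₄, W.c₆) ∧ conductor W ≤ X ∧ (conductor W : ℤ) ^ κ < |W.Δ|}

/-- for all `n` and `ε > 0` Szpiro's inequality with some exponent `κ` holds for all semistable
curves of conductor `N ≤ X` in the class `Q` whose discriminant has at most `n` different exponents,
apart from at most `C X ^ ε` of them -/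
def AlmostSzpiro (Q : WeierstrassCurve ℤ → Prop) : Prop :=
  ∀ (n : ℕ) (ε : ℝ), 0 < ε → ∃ (κ : ℕ) (C : ℝ), ∀ X : ℕ, 1 ≤ X →
    (Exceptional Q n κ X).Finite ∧ ((Exceptional Q n κ X).ncard : ℝ) ≤ C * (X : ℝ) ^ ε

/-- the invariant `j = c₄³ / Δ` is a value of the rational function `F / G` at a rational number -/
def Value (F G : ℤ[X]) (W : WeierstrassCurve ℤ) : Prop :=
  ∃ t : ℚ, aeval t G ≠ 0 ∧ (W.c₄ : ℚ) ^ 3 / W.Δ = aeval t F / aeval t G

/-- `F / G` has at least three rational poles on the projective line: three rational numbers `r`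
with `G(r) = 0 ≠ F(r)`, or two of them and the point at infinity (`deg G < deg F`) -/
def ThreePoles (F G : ℤ[X]) : Prop :=
  (∃ r : Fin 3 → ℚ, Function.Injective r ∧ ∀ i, aeval (r i) G = 0 ∧ aeval (r i) F ≠ 0) ∨
  (G.natDegree < F.natDegree ∧
    ∃ r : Fin 2 → ℚ, Function.Injective r ∧ ∀ i, aeval (r i) G = 0 ∧ aeval (r i) F ≠ 0)

/-- full rational 2-torsion: `4x³ + b₂x² + 2b₄x + b₆` splits over `ℚ` -/
def FullTwo (W : WeierstrassCurve ℤ) : Prop :=
  ∃ r₁ r₂ r₃ : ℚ, ∀ x : ℚ,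
    4 * x ^ 3 + W.b₂ * x ^ 2 + 2 * W.b₄ * x + W.b₆ = 4 * (x - r₁) * (x - r₂) * (x - r₃)

/-- a rational cyclic subgroup of order 4: `r` is the `x`-coordinate of a rational point of order 2
and `r ± q` are those of the points `P` with `2P` equal to this point -/
def Cyc4 (W : WeierstrassCurve ℤ) : Prop :=
  ∃ r q : ℚ, 4 * r ^ 3 + W.b₂ * r ^ 2 + 2 * W.b₄ * r + W.b₆ = 0 ∧
    6 * r ^ 2 + W.b₂ * r + W.b₄ = 2 * q ^ 2

/-- a rational cyclic subgroup of order 6: `r` is the `x`-coordinate of a rational point of order 2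
and `s` is a rational root of the third division polynomial -/
def Cyc6 (W : WeierstrassCurve ℤ) : Prop :=
  ∃ r s : ℚ, 4 * r ^ 3 + W.b₂ * r ^ 2 + 2 * W.b₄ * r + W.b₆ = 0 ∧
    3 * s ^ 4 + W.b₂ * s ^ 3 + 3 * W.b₄ * s ^ 2 + 3 * W.b₆ * s + W.b₈ = 0

/-- the invariant -/
def jW (W : WeierstrassCurve ℤ) : ℚ := (W.c₄ : ℚ) ^ 3 / W.Δ

theorem den_jW {W : WeierstrassCurve ℤ} (h : Semistable W) : (jW W).den = W.Δ.natAbs ∧
    ((W.c₄ : ℤ) ^ 3 = (jW W).num * W.Δ.sign) := by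
  have hD : W.Δ ≠ 0 := h.1
  have hcop : (W.c₄ ^ 3).natAbs.Coprime W.Δ.natAbs :=
    Int.isCoprime_iff_nat_coprime.1 h.2.pow_left
  rcases lt_or_gt_of_ne hD with hneg | hpos
  · have e : jW W = ((-(W.c₄ ^ 3) : ℤ) : ℚ) / ((W.Δ.natAbs : ℤ) : ℚ) := by
      have e1 : ((W.Δ.natAbs : ℤ) : ℚ) = -(W.Δ : ℚ) := by
        rw [Int.ofNat_natAbs_of_nonpos hneg.le]
        push_cast
        ring
      rw [e1, jW]
      push_cast
      rw [neg_div_neg_eq]
    have hcop' : (-(W.c₄ ^ 3)).natAbs.Coprime W.Δ.natAbs := by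
      rw [Int.natAbs_neg]
      exact hcop
    have hpos' : (0 : ℤ) < (W.Δ.natAbs : ℤ) := by exact_mod_cast Int.natAbs_pos.2 hD
    have h1 := Rat.den_div_eq_of_coprime (a := -(W.c₄ ^ 3)) hpos'
      (by rw [Int.natAbs_natCast]; exact hcop')
    have h2 := Rat.num_div_eq_of_coprime (a := -(W.c₄ ^ 3)) hpos'
      (by rw [Int.natAbs_natCast]; exact hcop')
    rw [e]
    refine ⟨by exact_mod_cast h1, ?_⟩
    rw [h2, Int.sign_eq_neg_one_of_neg hneg]
    ring
  · have e : jW W = ((W.c₄ ^ 3 : ℤ) : ℚ) / ((W.Δ.natAbs : ℤ) : ℚ) := by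
      have e1 : ((W.Δ.natAbs : ℤ) : ℚ) = (W.Δ : ℚ) := by
        rw [Int.natAbs_of_nonneg hpos.le]
      rw [e1, jW]
      push_cast
      rfl
    have hpos' : (0 : ℤ) < (W.Δ.natAbs : ℤ) := by exact_mod_cast Int.natAbs_pos.2 hD
    have h1 := Rat.den_div_eq_of_coprime (a := W.c₄ ^ 3) hpos'
      (by rw [Int.natAbs_natCast]; exact hcop)
    have h2 := Rat.num_div_eq_of_coprime (a := W.c₄ ^ 3) hpos'
      (by rw [Int.natAbs_natCast]; exact hcop)
    rw [e]
    refine ⟨by exact_mod_cast h1, ?_⟩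
    rw [h2, Int.sign_eq_one_of_pos hpos]
    ring

theorem conductor_pos (W : WeierstrassCurve ℤ) : 0 < conductor W :=
  prod_pos fun _ hp => (Nat.prime_of_mem_primeFactors hp).pos

/-- the bad invariants -/
def BadJ (F G : ℤ[X]) (n κ X : ℕ) : Set ℚ :=
  {j : ℚ | (∃ t : ℚ, aeval t G ≠ 0 ∧ j = aeval t F / aeval t G) ∧ Pool.Agent.X286.Sz.Few n j ∧
    Pool.Agent.X286.Gn.Bad 1 1 0 κ X j}

theorem bad {F G : ℤ[X]} {n κ X : ℕ} {W : WeierstrassCurve ℤ} (hW : Semistable W)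
    (hV : Value F G W) (hn : exponents W.Δ.natAbs ≤ n) (hX : conductor W ≤ X)
    (hlt : (conductor W : ℤ) ^ κ < |W.Δ|) : jW W ∈ BadJ F G n κ X := by
  obtain ⟨hd, -⟩ := den_jW hW
  refine ⟨hV, ?_, conductor W, W.Δ.natAbs, conductor_pos W, hX, ?_, ?_, ?_⟩
  · change exponents (jW W).den ≤ n
    rw [hd]
    exact hn
  · rw [Int.abs_eq_natAbs] at hlt
    exact_mod_cast hlt
  · rw [hd]
    exact prod_le_prod_of_subset_of_one_le' (filter_subset _ _)
      fun p hp _ => (Nat.prime_of_mem_primeFactors hp).one_lt.le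
  · intro _ _ H _ h2
    rw [hd] at h2
    rw [one_mul, pow_one, pow_zero, mul_one]
    exact h2

/-- a semistable curve is determined by its invariant and the signs of `c₆` and `Δ` -/
def code (q : ℤ × ℤ) : ℚ × (ℤ × ℤ) :=
  ((q.1 : ℚ) ^ 3 / (((q.1 ^ 3 - q.2 ^ 2) / 1728 : ℤ) : ℚ),
    (q.2.sign, ((q.1 ^ 3 - q.2 ^ 2) / 1728).sign))

theorem code_eq (W : WeierstrassCurve ℤ) :
    code (W.c₄, W.c₆) = (jW W, (W.c₆.sign, W.Δ.sign)) := by
  have h : (W.c₄ ^ 3 - W.c₆ ^ 2) / 1728 = W.Δ := by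
    rw [← W.c_relation]
    exact Int.mul_ediv_cancel_left _ (by norm_num)
  simp only [code, jW, h]

theorem inj {W W' : WeierstrassCurve ℤ} (h : Semistable W) (h' : Semistable W')
    (e : (jW W, (W.c₆.sign, W.Δ.sign)) = (jW W', (W'.c₆.sign, W'.Δ.sign))) :
    (W.c₄, W.c₆) = (W'.c₄, W'.c₆) := by
  obtain ⟨e1, e2⟩ := Prod.mk.inj e
  obtain ⟨e3, e4⟩ := Prod.mk.inj e2
  obtain ⟨d, c⟩ := den_jW h
  obtain ⟨d', c'⟩ := den_jW h'
  have r := W.c_relation
  have r' := W'.c_relation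
  rw [e1] at d c
  have hΔ : W.Δ.natAbs = W'.Δ.natAbs := d.symm.trans d'
  have hD : W.Δ = W'.Δ := by
    rw [← Int.sign_mul_natAbs W.Δ, ← Int.sign_mul_natAbs W'.Δ, e4, hΔ]
  have h4 : W.c₄ = W'.c₄ := by
    have h5 : W.c₄ ^ 3 = W'.c₄ ^ 3 := by rw [c, c', e4]
    exact (Odd.strictMono_pow (by decide : Odd 3)).injective h5
  have h6 : W.c₆ ^ 2 = W'.c₆ ^ 2 := by
    rw [hD, h4] at r
    linarith
  have h7 : W.c₆.natAbs = W'.c₆.natAbs := by
    have h8 := Int.natAbs_eq_natAbs_iff.2 (sq_eq_sq_iff_eq_or_eq_neg.1 h6)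
    exact h8
  have h9 : W.c₆ = W'.c₆ := by
    rw [← Int.sign_mul_natAbs W.c₆, ← Int.sign_mul_natAbs W'.c₆, e3, h7]
  rw [h4, h9]

/-- the signs -/
def sg : Finset ℤ := {-1, 0, 1}

theorem sg_mem (z : ℤ) : z.sign ∈ sg := by
  rcases lt_trichotomy z 0 with h | h | h
  · rw [Int.sign_eq_neg_one_of_neg h]
    decide
  · rw [h]
    decide
  · rw [Int.sign_eq_one_of_pos h]
    decide

theorem transfer {F G : ℤ[X]} {n κ X : ℕ} (hf : (BadJ F G n κ X).Finite) :
    (Exceptional (Value F G) n κ X).Finite ∧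
      (Exceptional (Value F G) n κ X).ncard ≤ 9 * (BadJ F G n κ X).ncard := by
  obtain ⟨T', hT'⟩ : ∃ T' : Finset (ℚ × (ℤ × ℤ)), T' = hf.toFinset ×ˢ (sg ×ˢ sg) := ⟨_, rfl⟩
  obtain ⟨T, hT⟩ : ∃ T : Set (ℚ × (ℤ × ℤ)), T = (T' : Set _) := ⟨_, rfl⟩
  have hmaps : ∀ q ∈ Exceptional (Value F G) n κ X, code q ∈ T := by
    rintro q ⟨W, hW, hV, hn, rfl, hX, hlt⟩
    rw [code_eq, hT, hT', mem_coe, mem_product, mem_product, Set.Finite.mem_toFinset]
    exact ⟨bad hW hV hn hX hlt, sg_mem _, sg_mem _⟩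
  have hinj : Set.InjOn code (Exceptional (Value F G) n κ X) := by
    rintro q ⟨W, hW, -, -, rfl, -⟩ q' ⟨W', hW', -, -, rfl, -⟩ e
    rw [code_eq, code_eq] at e
    exact inj hW hW' e
  have hTf : T.Finite := by
    rw [hT]
    exact Finset.finite_toSet _
  refine ⟨Set.Finite.of_finite_image (hTf.subset (Set.image_subset_iff.2 hmaps)) hinj, ?_⟩
  have h1 := Set.ncard_le_ncard_of_injOn code hmaps hinj hTf
  refine h1.trans (le_of_eq ?_)
  rw [hT, Set.ncard_coe_finset, hT', card_product, card_product, Set.ncard_eq_toFinset_card _ hf]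
  have : sg.card = 3 := by decide
  rw [this]
  ring

theorem family {F G : ℤ[X]} (hG : G ≠ 0) (h : ThreePoles F G) : AlmostSzpiro (Value F G) := by
  intro n ε hε
  have key : ∃ (κ : ℕ) (C : ℝ), ∀ X : ℕ, 1 ≤ X → (BadJ F G n κ X).Finite ∧
      ((BadJ F G n κ X).ncard : ℝ) ≤ C * (X : ℝ) ^ ε := by
    rcases h with ⟨r, hr, h⟩ | ⟨hdeg, r, hr, h⟩
    · obtain ⟨κ, C, -, hC⟩ := Pool.Agent.X286.Gn.affine hG r hr (fun i => (h i).1)
        (fun i => (h i).2) n 1 1 0 hε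
      exact ⟨κ, C, hC⟩
    · obtain ⟨κ, C, -, hC⟩ := Pool.Agent.X286.Gn.atInf hG hdeg r hr (fun i => (h i).1)
        (fun i => (h i).2) n 1 1 0 hε
      exact ⟨κ, C, hC⟩
  obtain ⟨κ, C, hC⟩ := key
  refine ⟨κ, 9 * C, fun X hX => ?_⟩
  obtain ⟨h1, h2⟩ := hC X hX
  obtain ⟨h3, h4⟩ := transfer h1
  refine ⟨h3, ?_⟩
  have h5 : ((Exceptional (Value F G) n κ X).ncard : ℝ) ≤ 9 * ((BadJ F G n κ X).ncard : ℝ) := by
    exact_mod_cast h4
  linarith

theorem mono {Q R : WeierstrassCurve ℤ → Prop} (h : ∀ W, W.Δ ≠ 0 → Q W → R W)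
    (hR : AlmostSzpiro R) : AlmostSzpiro Q := by
  intro n ε hε
  obtain ⟨κ, C, hC⟩ := hR n ε hε
  refine ⟨κ, C, fun X hX => ?_⟩
  obtain ⟨h1, h2⟩ := hC X hX
  have hsub : Exceptional Q n κ X ⊆ Exceptional R n κ X := by
    rintro q ⟨W, hW, hQ, hrest⟩
    exact ⟨W, hW, h W hW.1 hQ, hrest⟩
  refine ⟨h1.subset hsub, le_trans ?_ h2⟩
  exact_mod_cast Set.ncard_le_ncard hsub h1

theorem rel (W : WeierstrassCurve ℤ) : (1728 : ℚ) * W.Δ = (W.c₄ : ℚ) ^ 3 - (W.c₆ : ℚ) ^ 2 := by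
  exact_mod_cast W.c_relation

/-- full 2-torsion: the invariant in terms of `λ` -/
theorem full_value {W : WeierstrassCurve ℤ} (hD : W.Δ ≠ 0) (h : FullTwo W) :
    Value (256 * (X ^ 2 - X + 1) ^ 3) (X ^ 2 * (X - 1) ^ 2) W := by
  obtain ⟨r1, r2, r3, hr⟩ := h
  have h0 := hr 0
  have h1 := hr 1
  have h2 := hr (-1)
  have hb2 : (W.b₂ : ℚ) = -4 * (r1 + r2 + r3) := by
    linear_combination (1 / 2 : ℚ) * h1 + (1 / 2 : ℚ) * h2 - h0
  have hb4 : (W.b₄ : ℚ) = 2 * (r1 * r2 + r1 * r3 + r2 * r3) := by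
    linear_combination (1 / 4 : ℚ) * h1 - (1 / 4 : ℚ) * h2
  have hb6 : (W.b₆ : ℚ) = -4 * (r1 * r2 * r3) := by
    linear_combination h0
  have hc4 : (W.c₄ : ℚ) = W.b₂ ^ 2 - 24 * W.b₄ := by
    rw [WeierstrassCurve.c₄]
    push_cast
    ring
  have hc6 : (W.c₆ : ℚ) = -W.b₂ ^ 3 + 36 * W.b₂ * W.b₄ - 216 * W.b₆ := by
    rw [WeierstrassCurve.c₆]
    push_cast
    ring
  have hΔ : (W.Δ : ℚ) = 16 * ((r1 - r2) ^ 2 * (r1 - r3) ^ 2 * (r2 - r3) ^ 2) := by
    have := rel W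
    rw [hc4, hc6, hb2, hb4, hb6] at this
    linear_combination (1 / 1728 : ℚ) * this
  have hΔ0 : (W.Δ : ℚ) ≠ 0 := by exact_mod_cast hD
  have hne : (r1 - r2) ^ 2 * (r1 - r3) ^ 2 * (r2 - r3) ^ 2 ≠ 0 := by
    intro h
    rw [hΔ, h, mul_zero] at hΔ0
    exact hΔ0 rfl
  have d12 : r2 - r1 ≠ 0 := by
    intro h
    apply hne
    have : r1 = r2 := by linarith
    rw [this]
    ring
  have d13 : r3 - r1 ≠ 0 := by
    intro h
    apply hne
    have : r1 = r3 := by linarith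
    rw [this]
    ring
  have d23 : r3 - r2 ≠ 0 := by
    intro h
    apply hne
    have : r2 = r3 := by linarith
    rw [this]
    ring
  have hl : (r3 - r1) / (r2 - r1) - 1 = (r3 - r2) / (r2 - r1) := by
    field_simp
    ring
  have hG : ((r3 - r1) / (r2 - r1)) ^ 2 * ((r3 - r2) / (r2 - r1)) ^ 2 ≠ 0 :=
    mul_ne_zero (pow_ne_zero _ (div_ne_zero d13 d12)) (pow_ne_zero _ (div_ne_zero d23 d12))
  refine ⟨(r3 - r1) / (r2 - r1), ?_, ?_⟩
  · simp only [map_mul, map_pow, aeval_X, map_sub, map_one]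
    rw [hl]
    exact hG
  · simp only [map_mul, map_pow, aeval_X, map_sub, map_one, map_add, map_ofNat]
    rw [hl, hΔ, div_eq_div_iff (mul_ne_zero (by norm_num) hne) hG, hc4, hb2, hb4]
    field_simp
    ring

theorem full : AlmostSzpiro FullTwo := by
  refine mono (fun W hD h => full_value hD h) (family ?_ ?_)
  · exact mul_ne_zero (pow_ne_zero _ X_ne_zero) (pow_ne_zero _ (X_sub_C_ne_zero 1))
  · right
    refine ⟨?_, ![0, 1], ?_, ?_⟩
    · have h1 : (X ^ 2 * (X - 1) ^ 2 : ℤ[X]).natDegree = 4 := by compute_degree!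
      have h2 : (256 * (X ^ 2 - X + 1) ^ 3 : ℤ[X]).natDegree = 6 := by compute_degree!
      rw [h1, h2]
      norm_num
    · intro i j hij
      fin_cases i <;> fin_cases j <;> simp_all
    · intro i
      fin_cases i
      · simp only [Fin.zero_eta, Matrix.cons_val_zero, map_mul, map_pow, aeval_X, map_sub, map_one,
          map_add, map_ofNat]
        norm_num
      · simp only [Fin.mk_one, Matrix.cons_val_one, Matrix.cons_val_zero, map_mul, map_pow,
          aeval_X, map_sub, map_one, map_add, map_ofNat]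
        norm_num

/-- the model `y² = x³ - 27c₄ x - 54c₆` -/
theorem short (W : WeierstrassCurve ℤ) : (W.c₄ : ℚ) = W.b₂ ^ 2 - 24 * W.b₄ ∧
    (W.c₆ : ℚ) = -W.b₂ ^ 3 + 36 * W.b₂ * W.b₄ - 216 * W.b₆ ∧
    4 * (W.b₈ : ℚ) = W.b₂ * W.b₆ - W.b₄ ^ 2 := by
  refine ⟨?_, ?_, ?_⟩
  · rw [WeierstrassCurve.c₄]
    push_cast
    ring
  · rw [WeierstrassCurve.c₆]
    push_cast
    ring
  · exact_mod_cast W.b_relation

theorem cyc4_value {W : WeierstrassCurve ℤ} (hD : W.Δ ≠ 0) (h : Cyc4 W) :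
    Value (6912 * (3 * X ^ 2 - 1) ^ 3) (9 * X ^ 2 - 4) W := by
  obtain ⟨r', q', h1', h2'⟩ := h
  obtain ⟨hc4, hc6, hb8⟩ := short W
  obtain ⟨r, hr⟩ : ∃ r, r = 36 * r' + 3 * (W.b₂ : ℚ) := ⟨_, rfl⟩
  obtain ⟨q, hq'⟩ : ∃ q, q = 36 * q' := ⟨_, rfl⟩
  obtain ⟨a, hA⟩ : ∃ a, a = 27 * (W.c₄ : ℚ) := ⟨_, rfl⟩
  obtain ⟨b, hB⟩ : ∃ b, b = 54 * (W.c₆ : ℚ) := ⟨_, rfl⟩
  have h1 : r ^ 3 = a * r + b := by
    rw [hr, hA, hB, hc4, hc6]
    linear_combination 11664 * h1'
  have h2 : 3 * r ^ 2 - a = q ^ 2 := by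
    rw [hr, hA, hq', hc4]
    linear_combination 648 * h2'
  have hΔ0 : (W.Δ : ℚ) ≠ 0 := by exact_mod_cast hD
  have hj : (W.c₄ : ℚ) ^ 3 / W.Δ = 6912 * a ^ 3 / (4 * a ^ 3 - 27 * b ^ 2) := by
    have h3 : 4 * a ^ 3 - 27 * b ^ 2 = 136048896 * W.Δ := by
      rw [hA, hB]
      linear_combination (-78732) * rel W
    rw [h3, hA, div_eq_div_iff hΔ0 (mul_ne_zero (by norm_num) hΔ0)]
    ring
  have hD' : 4 * a ^ 3 - 27 * b ^ 2 ≠ 0 := by
    have h3 : 4 * a ^ 3 - 27 * b ^ 2 = 136048896 * W.Δ := by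
      rw [hA, hB]
      linear_combination (-78732) * rel W
    rw [h3]
    exact mul_ne_zero (by norm_num) hΔ0
  have ha : (a : ℚ) = 3 * r ^ 2 - q ^ 2 := by linarith
  have hb : (b : ℚ) = -2 * r ^ 3 + q ^ 2 * r := by
    linear_combination (-1 : ℚ) * h1 - r * ha
  have hDq : 4 * a ^ 3 - 27 * b ^ 2 = q ^ 4 * (9 * r ^ 2 - 4 * q ^ 2) := by
    rw [hb, ha]
    ring
  have hq : q ≠ 0 := by
    intro h
    apply hD'
    rw [hDq, h]
    ring
  have hG : 9 * (r / q) ^ 2 - 4 ≠ 0 := by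
    intro h
    apply hD'
    rw [hDq]
    have h3 : 9 * r ^ 2 - 4 * q ^ 2 = q ^ 2 * (9 * (r / q) ^ 2 - 4) := by
      field_simp
    rw [h3, h]
    ring
  refine ⟨r / q, ?_, ?_⟩
  · simp only [map_mul, map_pow, aeval_X, map_sub, map_ofNat]
    exact hG
  · simp only [map_mul, map_pow, aeval_X, map_sub, map_one, map_ofNat]
    rw [hj, div_eq_div_iff hD' hG, hDq, ha]
    field_simp

theorem cyc4 : AlmostSzpiro Cyc4 := by
  refine mono (fun W hD h => cyc4_value hD h) (family ?_ ?_)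
  · intro h
    have := congrArg (fun P : ℤ[X] => P.coeff 0) h
    simp at this
  · right
    refine ⟨?_, ![2 / 3, -2 / 3], ?_, ?_⟩
    · have h1 : (9 * X ^ 2 - 4 : ℤ[X]).natDegree = 2 := by compute_degree!
      have h2 : (6912 * (3 * X ^ 2 - 1) ^ 3 : ℤ[X]).natDegree = 6 := by compute_degree!
      rw [h1, h2]
      norm_num
    · intro i j hij
      fin_cases i <;> fin_cases j <;> norm_num at hij <;> rfl
    · intro i
      fin_cases i
      · simp only [Fin.zero_eta, Matrix.cons_val_zero, map_mul, map_pow, aeval_X, map_sub, map_one,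
          map_ofNat]
        norm_num
      · simp only [Fin.mk_one, Matrix.cons_val_one, Matrix.cons_val_zero, map_mul, map_pow,
          aeval_X, map_sub, map_one, map_ofNat]
        norm_num

theorem par6 {a b : ℚ} (hDq : (4 * (a : ℚ) ^ 3 - 27 * (b : ℚ) ^ 2) ≠ 0) {r s : ℚ}
    (h1 : r ^ 3 = a * r + b)
    (h2 : 3 * s ^ 4 - 6 * a * s ^ 2 - 12 * b * s - (a : ℚ) ^ 2 = 0) :
    ∃ t d : ℚ, d ≠ 0 ∧ (a : ℚ) = d ^ 2 * (27 * (t ^ 4 - 24 * t ^ 2 - 48 * t)) ∧
      (b : ℚ) = d ^ 3 * (54 * (-t ^ 6 + 36 * t ^ 4 + 72 * t ^ 3 - 216 * t ^ 2 - 864 * t - 864)) := by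
  have hsr : s - r ≠ 0 := by
    intro h0
    have e1 : s = r := by linarith
    rw [e1] at h2
    have hb : (b : ℚ) = r ^ 3 - a * r := by linarith
    have h3 : (3 * r ^ 2 - a) ^ 2 = 0 := by
      rw [hb] at h2
      linear_combination -h2
    have h4 := pow_eq_zero_iff (by norm_num) |>.1 h3
    apply hDq
    have ha : (a : ℚ) = 3 * r ^ 2 := by linarith
    rw [hb, ha]
    ring
  obtain ⟨d, hd⟩ : ∃ d, d = (s - r) / 36 := ⟨_, rfl⟩
  have hd0 : d ≠ 0 := by rw [hd]; exact div_ne_zero hsr (by norm_num)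
  have hr : r = s - 36 * d := by rw [hd]; ring
  obtain ⟨t, ht⟩ : ∃ t, t = -(a + 3 * s ^ 2 - 6 * r * s) / (1296 * d ^ 2) := ⟨_, rfl⟩
  have hd2 : 1296 * d ^ 2 ≠ 0 := mul_ne_zero (by norm_num) (pow_ne_zero _ hd0)
  have ht2 : a + 3 * s ^ 2 - 6 * r * s = -(1296 * d ^ 2) * t := by
    rw [ht]
    field_simp
  have hkey : (a + 3 * s ^ 2 - 6 * r * s) ^ 2 = 12 * s * (s - r) ^ 3 := by
    linear_combination (-1 : ℚ) * h2 + 12 * s * h1
  have hs : s = 3 * t ^ 2 * d := by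
    rw [ht2, hr] at hkey
    have h3 : (559872 * d ^ 3) * s = (559872 * d ^ 3) * (3 * t ^ 2 * d) := by
      linear_combination (-1 : ℚ) * hkey
    exact mul_left_cancel₀ (mul_ne_zero (by norm_num) (pow_ne_zero _ hd0)) h3
  have hr2 : r = (3 * t ^ 2 - 36) * d := by rw [hr, hs]; ring
  have ha : (a : ℚ) = d ^ 2 * (27 * (t ^ 4 - 24 * t ^ 2 - 48 * t)) := by
    have : (a : ℚ) = -(1296 * d ^ 2) * t - 3 * s ^ 2 + 6 * r * s := by linarith
    rw [this, hr2, hs]
    ring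
  refine ⟨t, d, hd0, ha, ?_⟩
  have hb : (b : ℚ) = r ^ 3 - a * r := by linarith
  rw [hb, ha, hr2]
  ring

theorem cyc6_value {W : WeierstrassCurve ℤ} (hD : W.Δ ≠ 0) (h : Cyc6 W) :
    Value ((X ^ 4 - 24 * X ^ 2 - 48 * X) ^ 3) ((X + 2) ^ 3 * (X - 6) * (X + 3) ^ 2) W := by
  obtain ⟨r', s', h1', h2'⟩ := h
  obtain ⟨hc4, hc6, hb8⟩ := short W
  obtain ⟨r, hr⟩ : ∃ r, r = 36 * r' + 3 * (W.b₂ : ℚ) := ⟨_, rfl⟩
  obtain ⟨s, hs'⟩ : ∃ s, s = 36 * s' + 3 * (W.b₂ : ℚ) := ⟨_, rfl⟩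
  obtain ⟨a, hA⟩ : ∃ a, a = 27 * (W.c₄ : ℚ) := ⟨_, rfl⟩
  obtain ⟨b, hB⟩ : ∃ b, b = 54 * (W.c₆ : ℚ) := ⟨_, rfl⟩
  have h1 : r ^ 3 = a * r + b := by
    rw [hr, hA, hB, hc4, hc6]
    linear_combination 11664 * h1'
  have h2 : 3 * s ^ 4 - 6 * a * s ^ 2 - 12 * b * s - a ^ 2 = 0 := by
    rw [hs', hA, hB, hc4, hc6]
    linear_combination 1679616 * h2' - 419904 * hb8
  have hΔ0 : (W.Δ : ℚ) ≠ 0 := by exact_mod_cast hD
  have hj : (W.c₄ : ℚ) ^ 3 / W.Δ = 6912 * a ^ 3 / (4 * a ^ 3 - 27 * b ^ 2) := by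
    have h3 : 4 * a ^ 3 - 27 * b ^ 2 = 136048896 * W.Δ := by
      rw [hA, hB]
      linear_combination (-78732) * rel W
    rw [h3, hA, div_eq_div_iff hΔ0 (mul_ne_zero (by norm_num) hΔ0)]
    ring
  have hD' : 4 * a ^ 3 - 27 * b ^ 2 ≠ 0 := by
    have h3 : 4 * a ^ 3 - 27 * b ^ 2 = 136048896 * W.Δ := by
      rw [hA, hB]
      linear_combination (-78732) * rel W
    rw [h3]
    exact mul_ne_zero (by norm_num) hΔ0
  obtain ⟨t, d, hd, ha, hb⟩ := par6 hD' h1 h2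
  have hDq : 4 * a ^ 3 - 27 * b ^ 2 =
      d ^ 6 * (136048896 * ((t + 2) ^ 3 * (t - 6) * (t + 3) ^ 2)) := by
    rw [hb, ha]
    ring
  have hG : (t + 2) ^ 3 * (t - 6) * (t + 3) ^ 2 ≠ 0 := by
    intro h
    apply hD'
    rw [hDq, h]
    ring
  refine ⟨t, ?_, ?_⟩
  · simp only [map_mul, map_pow, aeval_X, map_sub, map_add, map_ofNat]
    exact hG
  · simp only [map_mul, map_pow, aeval_X, map_sub, map_add, map_ofNat]
    rw [hj, div_eq_div_iff hD' hG, hDq, ha]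
    ring

theorem cyc6 : AlmostSzpiro Cyc6 := by
  refine mono (fun W hD h => cyc6_value hD h) (family ?_ ?_)
  · refine mul_ne_zero (mul_ne_zero (pow_ne_zero _ ?_) ?_) (pow_ne_zero _ ?_)
    · exact X_add_C_ne_zero 2
    · exact X_sub_C_ne_zero 6
    · exact X_add_C_ne_zero 3
  · left
    refine ⟨![-2, 6, -3], ?_, ?_⟩
    · intro i j hij
      fin_cases i <;> fin_cases j <;> norm_num at hij <;> rfl
    · intro i
      fin_cases i
      · simp only [Fin.zero_eta, Matrix.cons_val_zero, map_mul, map_pow, aeval_X, map_sub, map_add,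
          map_ofNat]
        norm_num
      · simp only [Fin.mk_one, Matrix.cons_val_one, Matrix.cons_val_zero, map_mul, map_pow,
          aeval_X, map_sub, map_add, map_ofNat]
        norm_num
      · simp only [Fin.reduceFinMk, Matrix.cons_val_two, Matrix.tail_cons, Matrix.head_cons,
          map_mul, map_pow, aeval_X, map_sub, map_add, map_ofNat]
        norm_num

/-- **Theorem.** For every rational function `J = F / G` with at least three rational poles, all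
`n` and `ε > 0` there are `κ` and `C` such that for all `X ≥ 1` at most `C X ^ ε` of the semistable
elliptic curves over `ℚ` of conductor `N ≤ X`, of whatever height, whose invariant is a value of `J`
and whose minimal discriminant has at most `n` different exponents in its prime factorisation, fail
`|Δ| ≤ N ^ κ`. The same holds for the semistable curves with full rational 2-torsion, for those with
a rational cyclic subgroup of order 4, and for those with a rational cyclic subgroup of order 6. -/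
theorem result :
    (∀ F G : ℤ[X], G ≠ 0 → ThreePoles F G → AlmostSzpiro (Value F G)) ∧
    AlmostSzpiro FullTwo ∧ AlmostSzpiro Cyc4 ∧ AlmostSzpiro Cyc6 :=
  ⟨fun _ _ hG h => family hG h, full, cyc4, cyc6⟩

end Pool.Agent.Results.MP_d8bd92_nt.FewExponents
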