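import Mathlib
import Pool.Agent.Y680.S.Top
import Pool.Agent.Y911.RD.Main

/-!
# The conductors of the semistable elliptic curves with full 2-torsion

Almost every positive integer which is the conductor of a semistable elliptic curve over `ℚ` with
full rational 2-torsion is the conductor of exactly one such curve, and Szpiro's inequality holds
for this curve. The number of these conductors is asymptotic to `κ X ^ (2/3)`, with the same
constant `κ` as for the number of the curves. There is no restriction on the discriminants.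
-/

set_option autoImplicit false

namespace Pool.Agent.Results.MP_d8bd92_nt.UniqueByConductor

open Filter Topology Pool.Agent.Y680.S Pool.Agent.TH498.AR
  Pool.Agent.Results.MP_1ea25c_nt.AlmostAllTriples

/-- the product of the primes dividing `Δ(W)` (the conductor if `gcd(c₄, Δ) = 1`) -/
def conductor (W : WeierstrassCurve ℤ) : ℕ := ∏ p ∈ W.Δ.natAbs.primeFactors, p

/-- all 2-torsion points are rational: `4x³ + b₂x² + 2b₄x + b₆` splits over `ℚ` -/
def FullTwoTorsion (W : WeierstrassCurve ℤ) : Prop :=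
  ∃ r₁ r₂ r₃ : ℚ, ∀ x : ℚ,
    4 * x ^ 3 + W.b₂ * x ^ 2 + 2 * W.b₄ * x + W.b₆ = 4 * (x - r₁) * (x - r₂) * (x - r₃)

/-- `W` is an integral Weierstrass curve with `Δ ≠ 0` and `gcd(c₄, Δ) = 1` (the minimal model of a
semistable elliptic curve over `ℚ`) having full rational 2-torsion -/
def Good (W : WeierstrassCurve ℤ) : Prop :=
  W.Δ ≠ 0 ∧ IsCoprime W.c₄ W.Δ ∧ FullTwoTorsion W

/-- the invariants `(c₄, c₆)` of the semistable elliptic curves over `ℚ` with full rational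
2-torsion and conductor `N` (they determine the curve up to isomorphism) -/
def Curves (N : ℕ) : Set (ℤ × ℤ) :=
  {q | ∃ W : WeierstrassCurve ℤ, Good W ∧ q = (W.c₄, W.c₆) ∧ conductor W = N}

/-- the curves of conductor at most `X`, of whatever discriminant -/
def CurvesUpTo (X : ℝ) : Set (ℤ × ℤ) := {q | ∃ N : ℕ, (N : ℝ) ≤ X ∧ q ∈ Curves N}

/-- the integers at most `X` which are conductors of these curves -/
def Conductors (X : ℝ) : Set ℕ := {N | (N : ℝ) ≤ X ∧ (Curves N).Nonempty}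

/-- `N` is the conductor of exactly one of these curves, and `N ^ 2 ≤ |Δ| ≤ N ^ (2 + δ)` for this
curve -/
def Regular (δ : ℝ) (N : ℕ) : Prop :=
  (∃ q, Curves N = {q}) ∧ ∀ W : WeierstrassCurve ℤ, Good W → conductor W = N →
    (N : ℝ) ^ 2 ≤ |(W.Δ : ℝ)| ∧ |(W.Δ : ℝ)| ≤ (N : ℝ) ^ (2 + δ)

lemma rad_cond {W : WeierstrassCurve ℤ} {p : ℕ × ℕ} (h1 : 0 < p.1) (h2 : 0 < p.2)
    (h16 : 16 ∣ p.1 * p.2 * (p.1 + p.2))
    (hD : 256 * W.Δ = (((p.1 * p.2 * (p.1 + p.2) : ℕ)) : ℤ) ^ 2) :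
    rad3 p = if 2 ∣ conductor W then conductor W else 2 * conductor W := by
  have hn : 0 < p.1 * p.2 * (p.1 + p.2) := by positivity
  rw [← rd_rad3]
  obtain ⟨k, hk⟩ := h16
  rw [hk] at hD hn ⊢
  have hk0 : 0 < k := by omega
  have hΔ : W.Δ = (k : ℤ) ^ 2 := by
    have : 256 * W.Δ = 256 * (k : ℤ) ^ 2 := by rw [hD]; push_cast; ring
    linarith
  have hcond : conductor W = rd k := by
    unfold conductor rd
    rw [hΔ, Int.natAbs_pow, Int.natAbs_natCast, Nat.primeFactors_pow _ (by norm_num)]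
  rw [hcond]
  by_cases h : 2 ∣ k
  · have h3 : 2 ∣ rd k := by
      obtain ⟨m, hm, -⟩ := rd_two hk0 h
      rw [hm]
      exact dvd_mul_right _ _
    rw [if_pos h3, rd_16_even hk0 h]
  · have h3 : ¬ 2 ∣ rd k := fun h4 => h (h4.trans (Nat.prod_primeFactors_dvd k))
    rw [if_neg h3, rd_16_odd hk0 h]

lemma upTo_eq (X : ℝ) : CurvesUpTo X = SC X := by
  ext q
  constructor
  · rintro ⟨N, hN, W, ⟨w1, w2, w3⟩, w4, rfl⟩
    exact ⟨W, w1, w2, w3, w4, hN⟩
  · rintro ⟨W, w1, w2, w3, w4, w5⟩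
    exact ⟨conductor W, w5, W, ⟨w1, w2, w3⟩, w4, rfl⟩

/-- the curves of conductor at most `X` whose conductor is that of another curve -/
def Twin (X : ℝ) : Set (ℤ × ℤ) :=
  {q | ∃ N : ℕ, (N : ℝ) ≤ X ∧ q ∈ Curves N ∧ ∃ q' ∈ Curves N, q' ≠ q}

lemma twin_sub {X : ℝ} (hX : 0 ≤ X) : Twin X ⊆ ff '' Pool.Agent.Y911.RD.shared (2 * X) := by
  rintro q ⟨N, hN, ⟨W, ⟨w1, w2, w3⟩, w4, w5⟩, q', ⟨W', ⟨w1', w2', w3'⟩, w4', w5'⟩, hne⟩
  obtain ⟨p, a1, a2, a3, a4, a5, a6⟩ := exists_pair W w1 w2 w3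
  obtain ⟨p', b1, b2, b3, b4, b5, b6⟩ := exists_pair W' w1' w2' w3'
  have hc : (conductor W : ℝ) ≤ X := by rw [w5]; exact hN
  have hc' : (conductor W' : ℝ) ≤ X := by rw [w5']; exact hN
  have hp : p ∈ GT th X := ⟨a1, a2, a3, (cond_iff a1 (by omega) a3 a4 a6 X).1 hc⟩
  have hp' : p' ∈ GT th X := ⟨b1, b2, b3, (cond_iff b1 (by omega) b3 b4 b6 X).1 hc'⟩
  have e : rad3 p' = rad3 p := by
    rw [rad_cond a1 (by omega) a4 a6, rad_cond b1 (by omega) b4 b6, w5, w5']
  refine ⟨p, ⟨GT_sub hX hp, p', GT_sub hX hp', ?_, e⟩, ?_⟩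
  · rintro rfl
    exact hne (by rw [w4', w4, a5, b5])
  · rw [w4, a5]

lemma twin_le : ∃ ν C : ℝ, 0 < ν ∧ 0 < C ∧ ∀ X : ℝ, 1 ≤ X →
    ((Twin X).ncard : ℝ) ≤ C * X ^ (2 / 3 - ν) := by
  obtain ⟨ν, C, hν, hν2, hC, h⟩ := Pool.Agent.Y911.RD.shared_le
  refine ⟨ν, C * 2, hν, by positivity, fun X hX => ?_⟩
  have hX0 : 0 < X := by linarith
  have hfin : (Pool.Agent.Y911.RD.shared (2 * X)).Finite :=
    (Pool.Agent.Y911.AA.triples_finite' (2 * X)).subset fun p hp => hp.1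
  have h2 : (Twin X).ncard ≤ (Pool.Agent.Y911.RD.shared (2 * X)).ncard :=
    (Set.ncard_le_ncard (twin_sub hX0.le) (hfin.image _)).trans (Set.ncard_image_le hfin)
  refine (Nat.cast_le.2 h2).trans ((h (2 * X) (by linarith)).trans ?_)
  rw [Real.mul_rpow (by norm_num) hX0.le]
  have e1 : (2 : ℝ) ^ (2 / 3 - ν) ≤ 2 := by
    calc (2 : ℝ) ^ (2 / 3 - ν) ≤ 2 ^ (1 : ℝ) :=
          Real.rpow_le_rpow_of_exponent_le (by norm_num) (by linarith)
      _ = 2 := Real.rpow_one _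
  have e2 : 0 ≤ X ^ (2 / 3 - ν) := by positivity
  calc C * (2 ^ (2 / 3 - ν) * X ^ (2 / 3 - ν)) ≤ C * (2 * X ^ (2 / 3 - ν)) :=
        mul_le_mul_of_nonneg_left (mul_le_mul_of_nonneg_right e1 e2) hC.le
    _ = _ := by ring

lemma upTo_finite (X : ℝ) : (CurvesUpTo X).Finite := by
  rw [upTo_eq, SC_eq]
  exact (GT_finite X).image _

/-- a curve has one conductor -/
lemma cond_unique {q : ℤ × ℤ} {N N' : ℕ} (h : q ∈ Curves N) (h' : q ∈ Curves N') : N = N' := by
  obtain ⟨W, -, w4, w5⟩ := h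
  obtain ⟨W', -, w4', w5'⟩ := h'
  have c4 : W.c₄ = W'.c₄ := by
    have := w4.symm.trans w4'
    exact (Prod.ext_iff.1 this).1
  have c6 : W.c₆ = W'.c₆ := by
    have := w4.symm.trans w4'
    exact (Prod.ext_iff.1 this).2
  have hD : W.Δ = W'.Δ := by
    have h1 := W.c_relation
    have h2 := W'.c_relation
    rw [c4, c6, ← h2] at h1
    linarith
  rw [← w5, ← w5']
  unfold conductor
  rw [hD]

lemma cond_finite (X : ℝ) : (Conductors X).Finite := by
  have h1 : ∀ N : ℕ, ∃ q : ℤ × ℤ, N ∈ Conductors X → q ∈ Curves N := by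
    intro N
    by_cases h : N ∈ Conductors X
    · obtain ⟨-, q, hq⟩ := h
      exact ⟨q, fun _ => hq⟩
    · exact ⟨(0, 0), fun h' => absurd h' h⟩
  choose f hf using h1
  refine Set.Finite.of_finite_image (f := f) ((upTo_finite X).subset ?_) ?_
  · rintro q ⟨N, hN, rfl⟩
    exact ⟨N, hN.1, hf N hN⟩
  · intro N hN N' hN' he
    have := hf N' hN'
    rw [← he] at this
    exact cond_unique (hf N hN) this

lemma cond_le (X : ℝ) : (Conductors X).ncard ≤ (CurvesUpTo X).ncard := by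
  have h1 : ∀ N : ℕ, ∃ q : ℤ × ℤ, N ∈ Conductors X → q ∈ Curves N := by
    intro N
    by_cases h : N ∈ Conductors X
    · obtain ⟨-, q, hq⟩ := h
      exact ⟨q, fun _ => hq⟩
    · exact ⟨(0, 0), fun h' => absurd h' h⟩
  choose f hf using h1
  refine Set.ncard_le_ncard_of_injOn f (fun N hN => ⟨N, hN.1, hf N hN⟩) ?_ (upTo_finite X)
  intro N hN N' hN' he
  have := hf N' hN'
  rw [← he] at this
  exact cond_unique (hf N hN) this

lemma twin_subset (X : ℝ) : Twin X ⊆ CurvesUpTo X := by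
  rintro q ⟨N, hN, h1, -⟩
  exact ⟨N, hN, h1⟩

lemma cond_ge (X : ℝ) : (CurvesUpTo X).ncard ≤ (Conductors X).ncard + (Twin X).ncard := by
  have h1 : (CurvesUpTo X \ Twin X).ncard ≤ (Conductors X).ncard := by
    have h2 : ∀ q : ℤ × ℤ, ∃ N : ℕ, q ∈ CurvesUpTo X → (N : ℝ) ≤ X ∧ q ∈ Curves N := by
      intro q
      by_cases h : q ∈ CurvesUpTo X
      · obtain ⟨N, a1, a2⟩ := h
        exact ⟨N, fun _ => ⟨a1, a2⟩⟩
      · exact ⟨0, fun h' => absurd h' h⟩
    choose f hf using h2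
    refine Set.ncard_le_ncard_of_injOn f (fun q hq => ⟨(hf q hq.1).1, q, (hf q hq.1).2⟩) ?_
      (cond_finite X)
    intro q hq q' hq' he
    by_contra hne
    refine hq.2 ⟨f q, (hf q hq.1).1, (hf q hq.1).2, q', ?_, fun h => hne h.symm⟩
    rw [he]
    exact (hf q' hq'.1).2
  have h2 := Set.ncard_sdiff_add_ncard_of_subset (twin_subset X) (upTo_finite X)
  omega

/-- **Almost every conductor of a semistable elliptic curve with full rational 2-torsion belongs
to exactly one such curve, and Szpiro's inequality holds for it.** (1) For every `X` the curves of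
conductor at most `X`, of whatever discriminant, are finite in number, and so are their conductors.
(2) There is `κ > 0` such that the number of the curves of conductor at most `X` and the number of
the conductors at most `X` are both asymptotic to `κ X ^ (2/3)`. (3) For every `δ > 0` there are
`η, C > 0` such that for all `X ≥ 1` all but `C X ^ (2/3 - η)` of the conductors `N ≤ X`, and the
conductors of all but `C X ^ (2/3 - η)` of the curves of conductor at most `X`, are regular: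
`N` is the conductor of exactly one curve, and `N ^ 2 ≤ |Δ| ≤ N ^ (2 + δ)` for this curve. -/
theorem result :
    (∀ X : ℝ, (CurvesUpTo X).Finite ∧ (Conductors X).Finite) ∧
    (∃ κ : ℝ, 0 < κ ∧
      Tendsto (fun X : ℝ => ((CurvesUpTo X).ncard : ℝ) / X ^ ((2 : ℝ) / 3)) atTop (𝓝 κ) ∧
      Tendsto (fun X : ℝ => ((Conductors X).ncard : ℝ) / X ^ ((2 : ℝ) / 3)) atTop (𝓝 κ)) ∧
    ∀ δ : ℝ, 0 < δ → ∃ η C : ℝ, 0 < η ∧ 0 < C ∧ ∀ X : ℝ, 1 ≤ X →
      ({N | N ∈ Conductors X ∧ ¬ Regular δ N}.ncard : ℝ) ≤ C * X ^ (2 / 3 - η) ∧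
      ({q | ∃ N : ℕ, (N : ℝ) ≤ X ∧ q ∈ Curves N ∧ ¬ Regular δ N}.ncard : ℝ) ≤
        C * X ^ (2 / 3 - η) := by
  obtain ⟨κ, hκ, hlim⟩ := main_asy
  obtain ⟨ν, C, hν, hC, htw⟩ := twin_le
  have hlim' : Tendsto (fun X : ℝ => ((CurvesUpTo X).ncard : ℝ) / X ^ ((2 : ℝ) / 3)) atTop
      (𝓝 κ) := by
    simp only [upTo_eq]
    exact hlim
  refine ⟨fun X => ⟨upTo_finite X, cond_finite X⟩, ⟨κ, hκ, hlim', ?_⟩, fun δ hδ => ?_⟩
  · have h1 : Tendsto (fun X : ℝ => C * X ^ (-ν)) atTop (𝓝 0) := by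
      have := (tendsto_rpow_neg_atTop hν).const_mul C
      rwa [mul_zero] at this
    have h2 := hlim'.sub h1
    rw [sub_zero] at h2
    refine tendsto_of_tendsto_of_tendsto_of_le_of_le' h2 hlim' ?_ ?_
    · filter_upwards [eventually_ge_atTop (1 : ℝ)] with X hX
      have hX0 : 0 < X := by linarith
      have hXp : 0 < X ^ ((2 : ℝ) / 3) := by positivity
      have h3 : ((CurvesUpTo X).ncard : ℝ) ≤ (Conductors X).ncard + (Twin X).ncard := by
        exact_mod_cast cond_ge X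
      have h4 := htw X hX
      rw [sub_le_iff_le_add, div_le_iff₀ hXp, add_mul, div_mul_cancel₀ _ hXp.ne', mul_assoc,
        ← Real.rpow_add hX0, show -ν + 2 / 3 = 2 / 3 - ν by ring]
      linarith
    · filter_upwards [eventually_ge_atTop (1 : ℝ)] with X hX
      have hX0 : 0 < X := by linarith
      have hXp : 0 < X ^ ((2 : ℝ) / 3) := by positivity
      refine div_le_div_of_nonneg_right ?_ hXp.le
      exact_mod_cast cond_le X
  · obtain ⟨η, C', hη, hC', hex⟩ := main_exc δ hδ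
    refine ⟨min ν η, C + 2 * C' , lt_min hν hη, by positivity, fun X hX => ?_⟩
    have hX0 : 0 < X := by linarith
    -- the exceptional curves
    obtain ⟨Ex, hEx⟩ : ∃ Ex : Set (ℤ × ℤ), Ex = {q | ∃ W : WeierstrassCurve ℤ, W.Δ ≠ 0 ∧
      IsCoprime W.c₄ W.Δ ∧ Pool.Agent.H925R.Szpiro.Full W ∧ q = (W.c₄, W.c₆) ∧
      (Pool.Agent.H925R.Szpiro.cond W : ℝ) ≤ X ∧
      (Pool.Agent.H925R.Szpiro.cond W : ℝ) ^ (2 + δ) < |(W.Δ : ℝ)|} := ⟨_, rfl⟩
    have hExc : (Ex.ncard : ℝ) ≤ C' * X ^ (2 / 3 - η) := by rw [hEx]; exact hex X hX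
    have hExs : Ex ⊆ CurvesUpTo X := by
      rw [hEx, upTo_eq]
      rintro q ⟨W, w1, w2, w3, w4, w5, -⟩
      exact ⟨W, w1, w2, w3, w4, w5⟩
    have hfin : (Twin X ∪ Ex).Finite :=
      ((upTo_finite X).subset (twin_subset X)).union ((upTo_finite X).subset hExs)
    have hB : {q | ∃ N : ℕ, (N : ℝ) ≤ X ∧ q ∈ Curves N ∧ ¬ Regular δ N} ⊆ Twin X ∪ Ex := by
      rintro q ⟨N, hN, hq, hr⟩
      by_cases ht : ∃ q' ∈ Curves N, q' ≠ q
      · exact Or.inl ⟨N, hN, hq, ht⟩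
      · push Not at ht
        refine Or.inr ?_
        by_contra hcon
        refine hr ⟨⟨q, Set.eq_singleton_iff_unique_mem.2 ⟨hq, ht⟩⟩, fun W hW hWN => ?_⟩
        obtain ⟨w1, w2, w3⟩ := hW
        have hWq : (W.c₄, W.c₆) = q := ht _ ⟨W, ⟨w1, w2, w3⟩, rfl, hWN⟩
        refine ⟨?_, ?_⟩
        · rw [← hWN]
          exact disc_ge w1 w2 w3
        · by_contra hlt
          rw [not_le, ← hWN] at hlt
          refine hcon ?_
          rw [hEx, ← hWq]
          exact ⟨W, w1, w2, w3, rfl, by rw [← hWN] at hN; exact hN, hlt⟩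
    have hcard : ({q | ∃ N : ℕ, (N : ℝ) ≤ X ∧ q ∈ Curves N ∧ ¬ Regular δ N}.ncard : ℝ) ≤
        (C + 2 * C') * X ^ (2 / 3 - min ν η) := by
      have h5 := (Set.ncard_le_ncard hB hfin).trans (Set.ncard_union_le _ _)
      have h6 : ({q | ∃ N : ℕ, (N : ℝ) ≤ X ∧ q ∈ Curves N ∧ ¬ Regular δ N}.ncard : ℝ) ≤
        ((Twin X).ncard : ℝ) + (Ex.ncard : ℝ) := by exact_mod_cast h5
      have k1 : X ^ (2 / 3 - ν) ≤ X ^ (2 / 3 - min ν η) :=
        Real.rpow_le_rpow_of_exponent_le hX (by linarith [min_le_left ν η])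
      have k2 : X ^ (2 / 3 - η) ≤ X ^ (2 / 3 - min ν η) :=
        Real.rpow_le_rpow_of_exponent_le hX (by linarith [min_le_right ν η])
      have k3 := (htw X hX).trans (mul_le_mul_of_nonneg_left k1 hC.le)
      have k4 := hExc.trans (mul_le_mul_of_nonneg_left k2 hC'.le)
      have k5 : 0 ≤ C' * X ^ (2 / 3 - min ν η) := by positivity
      linarith
    refine ⟨le_trans ?_ hcard, hcard⟩
    -- each bad conductor has a bad curve
    have h1 : ∀ N : ℕ, ∃ q : ℤ × ℤ, N ∈ Conductors X → q ∈ Curves N := by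
      intro N
      by_cases h : N ∈ Conductors X
      · obtain ⟨-, q, hq⟩ := h
        exact ⟨q, fun _ => hq⟩
      · exact ⟨(0, 0), fun h' => absurd h' h⟩
    choose f hf using h1
    have h7 : {N | N ∈ Conductors X ∧ ¬ Regular δ N}.ncard ≤
        {q | ∃ N : ℕ, (N : ℝ) ≤ X ∧ q ∈ Curves N ∧ ¬ Regular δ N}.ncard := by
      refine Set.ncard_le_ncard_of_injOn f (fun N hN => ⟨N, hN.1.1, hf N hN.1, hN.2⟩) ?_
        (hfin.subset hB)
      intro N hN N' hN' he
      have := hf N' hN'.1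
      rw [← he] at this
      exact cond_unique (hf N hN.1) this
    exact_mod_cast h7

end Pool.Agent.Results.MP_d8bd92_nt.UniqueByConductor
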