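import Mathlib
import Pool.Agent.Results.MP_d8bd92_nt.UniqueByConductor
import Pool.Agent.Results.MP_d8bd92_nt.FullTwoTorsionAllExponents
import Pool.Agent.Y854.GM.Win

/-!
# Szpiro's conjecture for semistable curves without exceptions in windows of heights and of conductors

Let `v ≥ 1` be a sequence with exponent of convergence at most `τ` (for `v_n = n ^ a` this is `1 / a`,
for `v_n = b ^ n` it is `0`) and `θ < 1`. We consider the semistable elliptic curves over `ℚ` with full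
rational 2-torsion, given by their minimal models.

Heights, `H ^ 6 = max (|c₄| ^ 3) (c₆ ^ 2)`: for all `α > 0` outside a set of Hausdorff dimension at most
`(F(6 / κ) + τ) / (1 - θ)` and each `c₀ > 0`, for all but finitely many `n`, ALL these curves with
`|H - α v_n| ≤ v_n ^ θ` satisfy `|Δ| ≤ c₀ N ^ κ`. Here `F(1) = 15 / 28` (`κ = 6`, the exponent of
Szpiro's conjecture, with `ε = 0`), and `F(6 / κ) < 1` for `κ > 27 / 8`. For all `α > 0` outside a set of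
dimension at most `τ / (1 - θ)` some `κ` is admissible.

Conductors: for every `δ > 0` there is `ν > 0` such that for all `α > 0` outside a set of Hausdorff
dimension at most `(2 / 3 - ν + τ) / (1 - θ)`, for all but finitely many `n`, each integer `N` with
`|N - α v_n| ≤ v_n ^ θ` is the conductor of at most one of these curves, of whatever discriminant, and
`N ^ 2 ≤ |Δ| ≤ N ^ (2 + δ)` for this curve. (The number of these conductors `N ≤ X` is asymptotic to a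
constant times `X ^ (2 / 3)`, so windows with `1 / 3 < θ < 1 / 3 + ν` contain many of them on average.)
-/

set_option autoImplicit false

namespace Pool.Agent.Results.MP_d8bd92_nt.NoExceptionsInWindows

open MeasureTheory

/-- the exponent of convergence of the sequence `v` is at most `τ` -/
def ExpLe (v : ℕ → ℝ) (τ : ℝ) : Prop := ∀ t : ℝ, τ < t → Summable (fun n : ℕ => (v n) ^ (-t))

/-- the product of the primes dividing `Δ(W)` (the conductor if `gcd(c₄, Δ) = 1`) -/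
def conductor (W : WeierstrassCurve ℤ) : ℕ := ∏ p ∈ W.Δ.natAbs.primeFactors, p

/-- all 2-torsion points are rational: `4x³ + b₂x² + 2b₄x + b₆` splits over `ℚ` -/
def FullTwoTorsion (W : WeierstrassCurve ℤ) : Prop :=
  ∃ r₁ r₂ r₃ : ℚ, ∀ x : ℚ,
    4 * x ^ 3 + W.b₂ * x ^ 2 + 2 * W.b₄ * x + W.b₆ = 4 * (x - r₁) * (x - r₂) * (x - r₃)

/-- `W` is an integral Weierstrass curve with `Δ ≠ 0` and `gcd(c₄, Δ) = 1` (the minimal model of a
semistable elliptic curve over `ℚ`) having full rational 2-torsion -/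
def Good (W : WeierstrassCurve ℤ) : Prop :=
  W.Δ ≠ 0 ∧ IsCoprime W.c₄ W.Δ ∧ FullTwoTorsion W

/-- the height `max (|c₄| ^ 3) (c₆ ^ 2) ^ (1 / 6)` -/
noncomputable def height (c₄ c₆ : ℤ) : ℝ :=
  max ((|(c₄ : ℝ)|) ^ ((1 : ℝ) / 2)) ((|(c₆ : ℝ)|) ^ ((1 : ℝ) / 3))

/-- the exponent as a function of `l = 6 / κ`, continuous and piecewise linear -/
noncomputable def F (l : ℝ) : ℝ :=
  if l ≤ 2 / 3 then 4 * l / 7
  else if l ≤ 1 then (13 * l + 2) / 28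
  else if l ≤ 3 / 2 then 5 * (10 * l - 1) / 84
  else if l ≤ 16 / 9 then (9 * l - 1) / 15
  else if l ≤ 2 then 1
  else l - 1

theorem F_nonneg {l : ℝ} (h : 0 ≤ l) : 0 ≤ F l := by
  unfold F
  split_ifs <;> linarith

theorem abs_le_of_height {a b : ℤ} {X : ℝ} (h : height a b ≤ X) :
    |a| ^ 3 ≤ ((⌈X⌉₊ : ℕ) : ℤ) ^ 6 ∧ b ^ 2 ≤ ((⌈X⌉₊ : ℕ) : ℤ) ^ 6 := by
  have hc : X ≤ (⌈X⌉₊ : ℝ) := Nat.le_ceil X
  have h1 : (|(a : ℝ)|) ^ ((1 : ℝ) / 2) ≤ (⌈X⌉₊ : ℝ) := ((le_max_left _ _).trans h).trans hc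
  have h2 : (|(b : ℝ)|) ^ ((1 : ℝ) / 3) ≤ (⌈X⌉₊ : ℝ) := ((le_max_right _ _).trans h).trans hc
  constructor
  · have h3 : |(a : ℝ)| ^ 3 = ((|(a : ℝ)|) ^ ((1 : ℝ) / 2)) ^ 6 := by
      rw [← Real.rpow_natCast ((|(a : ℝ)|) ^ ((1 : ℝ) / 2)) 6, ← Real.rpow_mul (abs_nonneg _),
        ← Real.rpow_natCast]
      norm_num
    have h4 : |(a : ℝ)| ^ 3 ≤ (⌈X⌉₊ : ℝ) ^ 6 := by
      rw [h3]
      exact pow_le_pow_left₀ (by positivity) h1 6
    exact_mod_cast h4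
  · have h3 : (b : ℝ) ^ 2 = ((|(b : ℝ)|) ^ ((1 : ℝ) / 3)) ^ 6 := by
      rw [← sq_abs, ← Real.rpow_natCast ((|(b : ℝ)|) ^ ((1 : ℝ) / 3)) 6,
        ← Real.rpow_mul (abs_nonneg _), ← Real.rpow_natCast]
      norm_num
    have h4 : (b : ℝ) ^ 2 ≤ (⌈X⌉₊ : ℝ) ^ 6 := by
      rw [h3]
      exact pow_le_pow_left₀ (by positivity) h2 6
    exact_mod_cast h4

/-- windows of heights, one constant -/
theorem heights (κ c₀ : ℝ) (hκ : 0 < κ) (hc₀ : 0 < c₀) {v : ℕ → ℝ} {τ θ : ℝ} (hv : ∀ n, 1 ≤ v n)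
    (hτ : 0 ≤ τ) (hE : ExpLe v τ) (hθ : θ < 1) :
    ∃ E : Set ℝ, dimH E ≤ ENNReal.ofReal ((F (6 / κ) + τ) / (1 - θ)) ∧ ∀ α : ℝ, 0 < α → α ∉ E →
      ∃ n₀ : ℕ, ∀ n : ℕ, n₀ ≤ n → ∀ W : WeierstrassCurve ℤ, Good W →
        |height W.c₄ W.c₆ - α * v n| ≤ (v n) ^ θ →
          |(W.Δ : ℝ)| ≤ c₀ * (conductor W : ℝ) ^ κ := by
  have hF : 0 ≤ F (6 / κ) := F_nonneg (by positivity)
  obtain ⟨E, h1, h2⟩ := Pool.Agent.Y854.GM.windows
    {q : ℤ × ℤ | ∃ W : WeierstrassCurve ℤ, Good W ∧ q = (W.c₄, W.c₆) ∧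
      c₀ * (conductor W : ℝ) ^ κ < |(W.Δ : ℝ)|} (fun q => height q.1 q.2) (θ := θ)
    hv hτ hE hF hθ (fun ε hε => by
      obtain ⟨C, hC⟩ := FullTwoTorsionAllExponents.result κ c₀ ε hκ hc₀ hε
      refine ⟨|C| * 2 ^ (F (6 / κ) + ε), fun X hX => ?_⟩
      have hX1 : 1 ≤ ⌈X⌉₊ := Nat.one_le_ceil_iff.2 (by linarith)
      obtain ⟨h3, h4⟩ := hC ⌈X⌉₊ hX1
      have hsub : {q | q ∈ {q : ℤ × ℤ | ∃ W : WeierstrassCurve ℤ, Good W ∧ q = (W.c₄, W.c₆) ∧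
          c₀ * (conductor W : ℝ) ^ κ < |(W.Δ : ℝ)|} ∧ height q.1 q.2 ≤ X} ⊆
          FullTwoTorsionAllExponents.Exceptional κ c₀ ⌈X⌉₊ := by
        rintro q ⟨⟨W, ⟨a1, a2, a3⟩, rfl, a4⟩, a5⟩
        obtain ⟨b1, b2⟩ := abs_le_of_height a5
        exact ⟨W, a1, a2, a3, rfl, b1, b2, a4⟩
      refine ⟨h3.subset hsub, ?_⟩
      have h5 : (({q | q ∈ {q : ℤ × ℤ | ∃ W : WeierstrassCurve ℤ, Good W ∧ q = (W.c₄, W.c₆) ∧
          c₀ * (conductor W : ℝ) ^ κ < |(W.Δ : ℝ)|} ∧ height q.1 q.2 ≤ X}.ncard : ℕ) : ℝ) ≤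
            C * ((⌈X⌉₊ : ℕ) : ℝ) ^ (F (6 / κ) + ε) := by
        refine le_trans ?_ h4
        exact_mod_cast Set.ncard_le_ncard hsub h3
      refine h5.trans ?_
      have h6 : ((⌈X⌉₊ : ℕ) : ℝ) ≤ 2 * X := by
        have := Nat.ceil_lt_add_one (by linarith : (0 : ℝ) ≤ X)
        linarith
      have h7 : ((⌈X⌉₊ : ℕ) : ℝ) ^ (F (6 / κ) + ε) ≤ 2 ^ (F (6 / κ) + ε) * X ^ (F (6 / κ) + ε) := by
        rw [← Real.mul_rpow (by norm_num) (by linarith)]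
        exact Real.rpow_le_rpow (Nat.cast_nonneg _) h6 (by positivity)
      calc C * ((⌈X⌉₊ : ℕ) : ℝ) ^ (F (6 / κ) + ε) ≤ |C| * ((⌈X⌉₊ : ℕ) : ℝ) ^ (F (6 / κ) + ε) :=
            mul_le_mul_of_nonneg_right (le_abs_self C) (by positivity)
        _ ≤ |C| * (2 ^ (F (6 / κ) + ε) * X ^ (F (6 / κ) + ε)) :=
            mul_le_mul_of_nonneg_left h7 (abs_nonneg C)
        _ = _ := by ring)
  refine ⟨E, h1, fun α hα hαE => ?_⟩
  obtain ⟨n₀, hn⟩ := h2 α hα hαE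
  refine ⟨n₀, fun n hn1 W hW hw => ?_⟩
  by_contra hcon
  push Not at hcon
  exact absurd (hn n hn1 (W.c₄, W.c₆) ⟨W, hW, rfl, hcon⟩) (not_lt.2 hw)

/-- **Theorem.** Let `v ≥ 1` be a sequence of exponent of convergence at most `τ ≥ 0`, `θ < 1`.

1. For every `κ > 0` there is a set `E` of Hausdorff dimension at most
`(F(6 / κ) + τ) / (1 - θ)` such that for each `α > 0` outside `E` and each `c₀ > 0`, for all but finitely
many `n`, ALL semistable elliptic curves over `ℚ` with full rational 2-torsion and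
`|H - α v_n| ≤ v_n ^ θ` satisfy `|Δ| ≤ c₀ N ^ κ`.

2. There is a set `E` of dimension at most `τ / (1 - θ)` such that for each `α > 0` outside `E` there is
`κ` with this property.

3. For every `δ > 0` there is `ν > 0`, independent of `v`, `τ`, `θ`, and a set `E` of dimension at
most `(2 / 3 - ν + τ) / (1 - θ)` such that for each `α > 0` outside `E`, for all but finitely many
`n`, ALL semistable elliptic curves over `ℚ` with full rational 2-torsion, of whatever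
discriminant, with `|N - α v_n| ≤ v_n ^ θ` satisfy `N ^ 2 ≤ |Δ| ≤ N ^ (2 + δ)`, and are determined (up
to isomorphism, that is, `(c₄, c₆)`) by `N`.

4. The sequences `v_n = (n + 1) ^ a` and `v_n = b ^ n` have exponent of convergence at most `1 / a`
and `0`. -/
theorem result :
    (∀ (v : ℕ → ℝ) (τ θ κ : ℝ), (∀ n, 1 ≤ v n) → 0 ≤ τ → ExpLe v τ → θ < 1 → 0 < κ →
      ∃ E : Set ℝ, dimH E ≤ ENNReal.ofReal ((F (6 / κ) + τ) / (1 - θ)) ∧
        ∀ α : ℝ, 0 < α → α ∉ E → ∀ c₀ : ℝ, 0 < c₀ → ∃ n₀ : ℕ, ∀ n : ℕ, n₀ ≤ n →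
          ∀ W : WeierstrassCurve ℤ, Good W → |height W.c₄ W.c₆ - α * v n| ≤ (v n) ^ θ →
            |(W.Δ : ℝ)| ≤ c₀ * (conductor W : ℝ) ^ κ) ∧
    (∀ (v : ℕ → ℝ) (τ θ : ℝ), (∀ n, 1 ≤ v n) → 0 ≤ τ → ExpLe v τ → θ < 1 →
      ∃ E : Set ℝ, dimH E ≤ ENNReal.ofReal (τ / (1 - θ)) ∧
        ∀ α : ℝ, 0 < α → α ∉ E → ∃ κ : ℝ, 0 < κ ∧ ∀ c₀ : ℝ, 0 < c₀ → ∃ n₀ : ℕ, ∀ n : ℕ, n₀ ≤ n →
          ∀ W : WeierstrassCurve ℤ, Good W → |height W.c₄ W.c₆ - α * v n| ≤ (v n) ^ θ →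
            |(W.Δ : ℝ)| ≤ c₀ * (conductor W : ℝ) ^ κ) ∧
    (∀ δ : ℝ, 0 < δ → ∃ ν : ℝ, 0 < ν ∧ ν ≤ 2 / 3 ∧
      ∀ (v : ℕ → ℝ) (τ θ : ℝ), (∀ n, 1 ≤ v n) → 0 ≤ τ → ExpLe v τ → θ < 1 →
      ∃ E : Set ℝ, dimH E ≤ ENNReal.ofReal ((2 / 3 - ν + τ) / (1 - θ)) ∧
        ∀ α : ℝ, 0 < α → α ∉ E → ∃ n₀ : ℕ, ∀ n : ℕ, n₀ ≤ n → ∀ W : WeierstrassCurve ℤ, Good W →
          |(conductor W : ℝ) - α * v n| ≤ (v n) ^ θ →
            (conductor W : ℝ) ^ 2 ≤ |(W.Δ : ℝ)| ∧ |(W.Δ : ℝ)| ≤ (conductor W : ℝ) ^ (2 + δ) ∧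
            ∀ W' : WeierstrassCurve ℤ, Good W' → conductor W' = conductor W →
              W'.c₄ = W.c₄ ∧ W'.c₆ = W.c₆) ∧
    (∀ a : ℝ, 0 < a → ExpLe (fun n : ℕ => ((n : ℝ) + 1) ^ a) (1 / a)) ∧
    (∀ b : ℝ, 1 < b → ExpLe (fun n : ℕ => b ^ n) 0) := by
  have main1 : ∀ (v : ℕ → ℝ) (τ θ κ : ℝ), (∀ n, 1 ≤ v n) → 0 ≤ τ → ExpLe v τ → θ < 1 → 0 < κ →
      ∃ E : Set ℝ, dimH E ≤ ENNReal.ofReal ((F (6 / κ) + τ) / (1 - θ)) ∧
        ∀ α : ℝ, 0 < α → α ∉ E → ∀ c₀ : ℝ, 0 < c₀ → ∃ n₀ : ℕ, ∀ n : ℕ, n₀ ≤ n →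
          ∀ W : WeierstrassCurve ℤ, Good W → |height W.c₄ W.c₆ - α * v n| ≤ (v n) ^ θ →
            |(W.Δ : ℝ)| ≤ c₀ * (conductor W : ℝ) ^ κ := by
    intro v τ θ κ hv hτ hE hθ hκ
    choose E hE1 hE2 using fun k : ℕ => heights κ (1 / ((k : ℝ) + 1)) hκ (by positivity) hv hτ hE hθ
    refine ⟨⋃ k, E k, ?_, fun α hα hαE c₀ hc₀ => ?_⟩
    · rw [dimH_iUnion]
      exact iSup_le hE1
    · obtain ⟨k, hk⟩ := exists_nat_one_div_lt hc₀
      obtain ⟨n₀, hn⟩ := hE2 k α hα (fun h => hαE (Set.mem_iUnion.2 ⟨k, h⟩))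
      refine ⟨n₀, fun n hn1 W hW hw => (hn n hn1 W hW hw).trans ?_⟩
      exact mul_le_mul_of_nonneg_right hk.le (by positivity)
  refine ⟨main1, fun v τ θ hv hτ hE hθ => ?_, fun δ hδ => ?_,
    fun κ hκ => Pool.Agent.Y854.GM.expLe_pow κ hκ, fun b hb => Pool.Agent.Y854.GM.expLe_geom b hb⟩
  · have hk9 : ∀ k : ℕ, (0 : ℝ) < (k : ℝ) + 9 := fun k => by positivity
    choose E hE1 hE2 using fun k : ℕ => main1 v τ θ ((k : ℝ) + 9) hv hτ hE hθ (hk9 k)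
    refine ⟨⋂ k, E k, ?_, fun α hα hαE => ?_⟩
    · have h1 : ∀ k : ℕ, dimH (⋂ k, E k) ≤
          ENNReal.ofReal ((24 / 7 * (1 / ((k : ℝ) + 9)) + τ) / (1 - θ)) := by
        intro k
        refine (dimH_mono (Set.iInter_subset E k)).trans ((hE1 k).trans (le_of_eq ?_))
        have h2 : F (6 / ((k : ℝ) + 9)) = 24 / 7 * (1 / ((k : ℝ) + 9)) := by
          unfold F
          rw [if_pos]
          · ring
          · rw [div_le_div_iff₀ (by positivity) (by norm_num)]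
            have : (0 : ℝ) ≤ k := Nat.cast_nonneg k
            linarith
        rw [h2]
      have h3 : Filter.Tendsto (fun k : ℕ => ENNReal.ofReal
          ((24 / 7 * (1 / ((k : ℝ) + 9)) + τ) / (1 - θ))) Filter.atTop
          (nhds (ENNReal.ofReal (τ / (1 - θ)))) := by
        apply ENNReal.tendsto_ofReal
        have h4 : Filter.Tendsto (fun k : ℕ => (1 : ℝ) / ((k : ℝ) + 9)) Filter.atTop
            (nhds 0) := by
          refine Filter.Tendsto.div_atTop tendsto_const_nhds ?_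
          exact Filter.tendsto_atTop_add_const_right _ _ tendsto_natCast_atTop_atTop
        have h5 := ((h4.const_mul (24 / 7)).add_const τ).div_const (1 - θ)
        simpa using h5
      exact ge_of_tendsto' h3 h1
    · rw [Set.mem_iInter] at hαE
      push Not at hαE
      obtain ⟨k, hk⟩ := hαE
      exact ⟨(k : ℝ) + 9, hk9 k, hE2 k α hα hk⟩
  · obtain ⟨ν, C, hν, hC, h⟩ := UniqueByConductor.result.2.2 δ hδ
    refine ⟨min ν (2 / 3), lt_min hν (by norm_num), min_le_right _ _,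
      fun v τ θ hv hτ hE hθ => ?_⟩
    have hcount : ∀ ε : ℝ, 0 < ε → ∃ C : ℝ, ∀ X : ℝ, 1 ≤ X →
        {r | r ∈ {r : ℕ | (UniqueByConductor.Curves r).Nonempty ∧
          ¬ UniqueByConductor.Regular δ r} ∧ (r : ℝ) ≤ X}.Finite ∧
        ({r | r ∈ {r : ℕ | (UniqueByConductor.Curves r).Nonempty ∧
          ¬ UniqueByConductor.Regular δ r} ∧ (r : ℝ) ≤ X}.ncard : ℝ) ≤
            C * X ^ (2 / 3 - min ν (2 / 3) + ε) := by
      intro ε hε
      refine ⟨C, fun X hX => ?_⟩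
      have hset : {r | r ∈ {r : ℕ | (UniqueByConductor.Curves r).Nonempty ∧
          ¬ UniqueByConductor.Regular δ r} ∧ (r : ℝ) ≤ X} =
          {r | r ∈ UniqueByConductor.Conductors X ∧ ¬ UniqueByConductor.Regular δ r} := by
        ext r
        constructor
        · rintro ⟨⟨b1, b2⟩, b3⟩
          exact ⟨⟨b3, b1⟩, b2⟩
        · rintro ⟨⟨b1, b2⟩, b3⟩
          exact ⟨⟨b2, b3⟩, b1⟩
      rw [hset]
      refine ⟨(UniqueByConductor.result.1 X).2.subset fun r hr => hr.1, (h X hX).1.trans ?_⟩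
      refine mul_le_mul_of_nonneg_left ?_ hC.le
      exact Real.rpow_le_rpow_of_exponent_le hX (by linarith [min_le_left ν (2 / 3)])
    obtain ⟨E, h1, h2⟩ := Pool.Agent.Y854.GM.windows
      {r : ℕ | (UniqueByConductor.Curves r).Nonempty ∧ ¬ UniqueByConductor.Regular δ r}
      (fun r : ℕ => (r : ℝ)) (θ := θ) (s := 2 / 3 - min ν (2 / 3)) hv hτ hE
      (by linarith [min_le_right ν (2 / 3)]) hθ hcount
    refine ⟨E, h1, fun α hα hαE => ?_⟩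
    obtain ⟨n₀, hn⟩ := h2 α hα hαE
    refine ⟨n₀, fun n hn1 W hW hw => ?_⟩
    have hmem : (W.c₄, W.c₆) ∈ UniqueByConductor.Curves (conductor W) := ⟨W, hW, rfl, rfl⟩
    have hreg : UniqueByConductor.Regular δ (conductor W) := by
      by_contra hcon
      exact absurd (hn n hn1 (conductor W) ⟨⟨_, hmem⟩, hcon⟩) (not_lt.2 hw)
    obtain ⟨⟨q, hq⟩, c2⟩ := hreg
    refine ⟨(c2 W hW rfl).1, (c2 W hW rfl).2, fun W' hW' hc => ?_⟩
    have hmem' : (W'.c₄, W'.c₆) ∈ UniqueByConductor.Curves (conductor W) := ⟨W', hW', rfl, hc⟩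
    rw [hq, Set.mem_singleton_iff] at hmem hmem'
    rw [← hmem] at hmem'
    exact ⟨congrArg Prod.fst hmem', congrArg Prod.snd hmem'⟩

end Pool.Agent.Results.MP_d8bd92_nt.NoExceptionsInWindows
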